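import Pool.Agent.H95.Eqv

set_option autoImplicit false
open Pool.Agent.H95.Eqv

theorem Pool.Agent.Results.MP_6bd626_an.Fail.result : ¬ HasEqvProj (lp (fun _ : ℕ => ℝ) 2) :=
  Pool.Agent.H95.Eqv.main'
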